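import Pool.Agent.V5helper38.EP.Stm

/-!
# Project EP, job CPL: the model of a halting run satisfies the formula
-/

set_option autoImplicit false

namespace Pool.Agent.V5helper91.EP

open Pool.Agent.V5helper38.EP
open Pool.Agent.Helper707.Flat (Ins step sx)

section general
variable {A W : Type} (M : Model A W) (D : Set W) (w : W)

theorem sat_neg (φ : Fm A) : sat M (.neg φ) D w ↔ ¬ sat M φ D w := Iff.rfl

theorem sat_and (φ ψ : Fm A) : sat M (.and φ ψ) D w ↔ sat M φ D w ∧ sat M ψ D w := Iff.rfl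

theorem sat_imp (φ ψ : Fm A) : sat M (imp φ ψ) D w ↔ (sat M φ D w → sat M ψ D w) := by
  simp only [imp, sat]
  tauto

theorem sat_or (φ ψ : Fm A) : sat M (or' φ ψ) D w ↔ (sat M φ D w ∨ sat M ψ D w) := by
  simp only [or', sat]
  tauto

theorem sat_top : sat M (top' : Fm A) D w := by
  simp only [top', sat]
  tauto

theorem sat_know (a : A) (φ : Fm A) : sat M (.know a φ) D w ↔
    ∀ v ∈ D, (M.R a).r w v → sat M φ D v := Iff.rfl

theorem sat_dia (a : A) (φ : Fm A) : sat M (dia a φ) D w ↔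
    ∃ v ∈ D, (M.R a).r w v ∧ sat M φ D v := by
  simp only [dia, sat]
  push Not
  rfl

theorem sat_conj (l : List (Fm A)) : sat M (conj l) D w ↔ ∀ φ ∈ l, sat M φ D w := by
  induction l with
  | nil =>
    simp only [conj, List.not_mem_nil, false_imp_iff, implies_true, iff_true]
    exact sat_top M D w
  | cons φ l ih =>
    simp only [conj, sat_and, ih, List.mem_cons, forall_eq_or_imp]

theorem sat_disj (l : List (Fm A)) : sat M (disj l) D w ↔ ∃ φ ∈ l, sat M φ D w := by
  induction l with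
  | nil =>
    simp only [disj, List.not_mem_nil, false_and, exists_false, iff_false]
    intro h
    exact h (sat_top M D w)
  | cons φ l ih =>
    simp only [disj, sat_or, ih, List.mem_cons, exists_eq_or_imp]

end general

theorem sat_C {k : ℕ} {W : Type} (M : Model (Fin (k + 2)) W) (D : Set W) (w : W) (φ : Fm (Fin (k + 2)))
    (h : ∀ v ∈ D, sat M φ D v) : sat M (C φ) D w := by
  intro v hv
  rcases hv with h1 | ⟨_, h1⟩
  · exact h _ h1.2.1
  · exact h _ h1.2.1

section model
variable (k T K : ℕ) (q : ℕ → ℕ) (s : ℕ → ℕ → ℕ)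

theorem R0 (v w : {v : Wd // Ex T K s v}) :
    ((mdl k T K q s).R 0).r v w ↔ cl0 v.1 = cl0 w.1 := by
  have : (mdl k T K q s).R 0 = Setoid.ker (fun v => cl0 v.1) := by
    simp [mdl]
  rw [this]
  rfl

theorem R1 (v w : {v : Wd // Ex T K s v}) :
    ((mdl k T K q s).R 1).r v w ↔ cl1 v.1 = cl1 w.1 := by
  have : (mdl k T K q s).R 1 = Setoid.ker (fun v => cl1 v.1) := by
    simp [mdl]
  rw [this]
  rfl

variable (D : Set {v : Wd // Ex T K s v})

theorem at_st (j t : ℕ) (b : Bool) (h : Ex T K s (.sp t b)) :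
    sat (mdl k T K q s) (st j) D ⟨.sp t b, h⟩ ↔ j = q t := by
  change (8 * j = 8 * q t ∨ (8 * j = 1 ∧ b = false) ∨ (8 * j = 9 ∧ b = true) ∨
    (8 * j = 17 ∧ b = false ∧ t = 0) ∨ ∃ r, 8 * j = 8 * r + 2 ∧ s t r = 0) ↔ _
  constructor
  · rintro (h1 | h1 | h1 | h1 | ⟨r, h1, _⟩)
    · omega
    · omega
    · omega
    · omega
    · omega
  · intro h1
    left
    omega

theorem at_zr (j t : ℕ) (b : Bool) (h : Ex T K s (.sp t b)) :
    sat (mdl k T K q s) (zr j) D ⟨.sp t b, h⟩ ↔ s t j = 0 := by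
  change (8 * j + 2 = 8 * q t ∨ (8 * j + 2 = 1 ∧ b = false) ∨ (8 * j + 2 = 9 ∧ b = true) ∨
    (8 * j + 2 = 17 ∧ b = false ∧ t = 0) ∨ ∃ r, 8 * j + 2 = 8 * r + 2 ∧ s t r = 0) ↔ _
  constructor
  · rintro (h1 | h1 | h1 | h1 | ⟨r, h1, h2⟩)
    · omega
    · omega
    · omega
    · omega
    · obtain rfl : j = r := by omega
      exact h2
  · intro h1
    exact Or.inr (Or.inr (Or.inr (Or.inr ⟨j, rfl, h1⟩)))

theorem at_S (t : ℕ) (b : Bool) (h : Ex T K s (.sp t b)) :
    sat (mdl k T K q s) sS D ⟨.sp t b, h⟩ ↔ b = false := by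
  change (1 = 8 * q t ∨ (1 = 1 ∧ b = false) ∨ (1 = 9 ∧ b = true) ∨
    (1 = 17 ∧ b = false ∧ t = 0) ∨ ∃ r, 1 = 8 * r + 2 ∧ s t r = 0) ↔ _
  constructor
  · rintro (h1 | h1 | h1 | h1 | ⟨r, h1, _⟩)
    · omega
    · exact h1.2
    · omega
    · omega
    · omega
  · intro h1
    exact Or.inr (Or.inl ⟨rfl, h1⟩)

theorem at_P (t : ℕ) (b : Bool) (h : Ex T K s (.sp t b)) :
    sat (mdl k T K q s) sP D ⟨.sp t b, h⟩ ↔ b = true := by
  change (9 = 8 * q t ∨ (9 = 1 ∧ b = false) ∨ (9 = 9 ∧ b = true) ∨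
    (9 = 17 ∧ b = false ∧ t = 0) ∨ ∃ r, 9 = 8 * r + 2 ∧ s t r = 0) ↔ _
  constructor
  · rintro (h1 | h1 | h1 | h1 | ⟨r, h1, _⟩)
    · omega
    · omega
    · exact h1.2
    · omega
    · omega
  · intro h1
    exact Or.inr (Or.inr (Or.inl ⟨rfl, h1⟩))

theorem at_ini (t : ℕ) (b : Bool) (h : Ex T K s (.sp t b)) :
    sat (mdl k T K q s) ini D ⟨.sp t b, h⟩ ↔ b = false ∧ t = 0 := by
  change (17 = 8 * q t ∨ (17 = 1 ∧ b = false) ∨ (17 = 9 ∧ b = true) ∨
    (17 = 17 ∧ b = false ∧ t = 0) ∨ ∃ r, 17 = 8 * r + 2 ∧ s t r = 0) ↔ _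
  constructor
  · rintro (h1 | h1 | h1 | h1 | ⟨r, h1, _⟩)
    · omega
    · omega
    · omega
    · exact h1.2
    · omega
  · intro h1
    exact Or.inr (Or.inr (Or.inr (Or.inl ⟨rfl, h1⟩)))

theorem at_cell (r i t : ℕ) (b : Bool) (h : Ex T K s (.sp t b)) :
    ¬ sat (mdl k T K q s) (cell r i) D ⟨.sp t b, h⟩ := by
  change ¬ (8 * r + 4 + i % 4 = 8 * q t ∨ (8 * r + 4 + i % 4 = 1 ∧ b = false) ∨
    (8 * r + 4 + i % 4 = 9 ∧ b = true) ∨
    (8 * r + 4 + i % 4 = 17 ∧ b = false ∧ t = 0) ∨ ∃ r', 8 * r + 4 + i % 4 = 8 * r' + 2 ∧ s t r' = 0)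
  have hi : i % 4 < 4 := Nat.mod_lt _ (by norm_num)
  rintro (h1 | h1 | h1 | h1 | ⟨r', h1, _⟩)
  · omega
  · omega
  · omega
  · omega
  · omega

theorem at_sp (t : ℕ) (b : Bool) (h : Ex T K s (.sp t b)) :
    sat (mdl k T K q s) sp D ⟨.sp t b, h⟩ := by
  rw [sp, sat_or, at_S, at_P]
  cases b <;> simp

theorem ce_not (p t r i : ℕ) (hp : p % 8 < 4) (h : Ex T K s (.ce t r i)) :
    ¬ sat (mdl k T K q s) (.atom p) D ⟨.ce t r i, h⟩ := by
  change ¬ (p = 8 * r + 4 + i % 4)
  have hi : i % 4 < 4 := Nat.mod_lt _ (by norm_num)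
  omega

theorem ce_st (j t r i : ℕ) (h : Ex T K s (.ce t r i)) :
    ¬ sat (mdl k T K q s) (st j) D ⟨.ce t r i, h⟩ := ce_not _ _ _ _ _ _ _ _ _ _ (by omega) h

theorem ce_S (t r i : ℕ) (h : Ex T K s (.ce t r i)) :
    ¬ sat (mdl k T K q s) sS D ⟨.ce t r i, h⟩ := ce_not _ _ _ _ _ _ _ _ _ _ (by omega) h

theorem ce_P (t r i : ℕ) (h : Ex T K s (.ce t r i)) :
    ¬ sat (mdl k T K q s) sP D ⟨.ce t r i, h⟩ := ce_not _ _ _ _ _ _ _ _ _ _ (by omega) h

theorem ce_ini (t r i : ℕ) (h : Ex T K s (.ce t r i)) :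
    ¬ sat (mdl k T K q s) ini D ⟨.ce t r i, h⟩ := ce_not _ _ _ _ _ _ _ _ _ _ (by omega) h

theorem ce_sp (t r i : ℕ) (h : Ex T K s (.ce t r i)) :
    ¬ sat (mdl k T K q s) sp D ⟨.ce t r i, h⟩ := by
  rw [sp, sat_or]
  rintro (h1 | h1)
  · exact ce_S _ _ _ _ _ _ _ _ _ _ h1
  · exact ce_P _ _ _ _ _ _ _ _ _ _ h1

/-- what agent 1 knows at `s'_t` -/
theorem know1 (n t : ℕ) (h : Ex T K s (.sp t true)) (h' : Ex T K s (.sp (t + 1) false))
    (ψ : Fm (Fin (k + 2))) :
    sat (mdl k T K q s) (.know 1 (imp sS ψ)) (stg T K n s) ⟨.sp t true, h⟩ ↔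
      sat (mdl k T K q s) ψ (stg T K n s) ⟨.sp (t + 1) false, h'⟩ := by
  rw [sat_know]
  constructor
  · intro h1
    have h2 := h1 ⟨.sp (t + 1) false, h'⟩ (by simp [stg]) ((R1 k T K q s _ _).2 (by simp [cl1]))
    rw [sat_imp, at_S] at h2
    exact h2 rfl
  · intro h1 v hv hr
    rw [R1] at hr
    obtain ⟨v, hv'⟩ := v
    rw [sat_imp]
    intro hS
    cases v with
    | sp t' b =>
      rw [at_S] at hS
      subst hS
      simp only [cl1, Prod.mk.injEq] at hr
      simp at hr
      subst hr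
      exact h1
    | ce t' r i => exact absurd hS (ce_S _ _ _ _ _ _ _ _ _ _)

end model

section run
variable {k T K : ℕ} {q : ℕ → ℕ} {s : ℕ → ℕ → ℕ}

/-- the three facts of the job STG for one model -/
structure Facts (k T K : ℕ) (q : ℕ → ℕ) (s : ℕ → ℕ → ℕ) : Prop where
  one : ∀ n : ℕ, (fun E : Set {v : Wd // Ex T K s v} =>
    {v | v ∈ E ∧ sat (mdl k T K q s) (alpha K) E v})^[n] Set.univ = stg T K n s
  two : ∀ n : ℕ, {v | v ∈ stg T K n s ∧ sat (mdl k T K q s) (alpha K) (stg T K n s) v}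
    = stg T K (n + 1) s
  three : ∀ (n r t : ℕ) (b : Bool) (h : Ex T K s (.sp t b)), r < K →
    (sat (mdl k T K q s) (see r) (stg T K n s) ⟨.sp t b, h⟩ ↔ n < s t r)

theorem mem_sp (n t : ℕ) (b : Bool) (h : Ex T K s (.sp t b)) :
    (⟨.sp t b, h⟩ : {v : Wd // Ex T K s v}) ∈ stg T K n s := by
  simp [stg]

/-- announcements of `alpha` at the spine worlds -/
theorem sat_ann (F : Facts k T K q s) (n t : ℕ) (b : Bool) (h : Ex T K s (.sp t b))
    (ψ : Fm (Fin (k + 2))) :
    sat (mdl k T K q s) (.ann (alpha K) ψ) (stg T K n s) ⟨.sp t b, h⟩ ↔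
      sat (mdl k T K q s) ψ (stg T K (n + 1) s) ⟨.sp t b, h⟩ := by
  have h1 : sat (mdl k T K q s) (alpha K) (stg T K n s) ⟨.sp t b, h⟩ := by
    have h2 := mem_sp (T := T) (K := K) (s := s) (n + 1) t b h
    rw [← F.two] at h2
    exact h2.2
  change (sat (mdl k T K q s) (alpha K) (stg T K n s) ⟨.sp t b, h⟩ →
    sat (mdl k T K q s) ψ {v | v ∈ stg T K n s ∧ sat (mdl k T K q s) (alpha K) (stg T K n s) v}
      ⟨.sp t b, h⟩) ↔ _
  rw [F.two]
  exact ⟨fun h2 => h2 h1, fun h2 _ => h2⟩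

theorem sat_val (F : Facts k T K q s) (r t : ℕ) (b : Bool) (h : Ex T K s (.sp t b)) (hr : r < K)
    (n : ℕ) : ∀ m : ℕ, s t r = m + n →
      sat (mdl k T K q s) (val K r n) (stg T K m s) ⟨.sp t b, h⟩ := by
  induction n with
  | zero =>
    intro m hm
    rw [val, sat_neg, F.three m r t b h hr]
    omega
  | succ n ih =>
    intro m hm
    rw [val, sat_and, F.three m r t b h hr, sat_ann F]
    exact ⟨by omega, ih _ (by omega)⟩

/-- the conditions on a run of length `T` -/
structure Run (P : List Ins) (x T K : ℕ) (q : ℕ → ℕ) (s : ℕ → ℕ → ℕ) : Prop where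
  q0 : q 0 = 0
  s0 : s 0 = sx x 0 0
  stp : ∀ t, (q (t + 1), s (t + 1)) = step P (q t, s t)
  lt : ∀ t < T, q t < P.length
  le : P.length ≤ q T
  ltK : ∀ t, q t < K

/-- the change of a register -/
def chg (m : Option (ℕ × Bool)) (f g : ℕ → ℕ) (r : ℕ) : Prop :=
  (m = some (r, true) → g r = f r + 1) ∧ (m = some (r, false) → f r ≠ 0 ∧ g r = f r - 1) ∧
    (m ≠ some (r, true) → m ≠ some (r, false) → g r = f r)

/-- what is true in the case `c` -/
theorem case_facts {P : List Ins} {x : ℕ} (hOk : Ok P K) (hR : Run P x T K q s)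
    (D : Set {v : Wd // Ex T K s v}) (t : ℕ) (b : Bool) (h : Ex T K s (.sp t b))
    (c : Fm (Fin (k + 2)) × ℕ × Option (ℕ × Bool)) (hc : c ∈ allc P)
    (h1 : sat (mdl k T K q s) c.1 D ⟨.sp t b, h⟩) :
    q (t + 1) = c.2.1 ∧ (∀ r, chg c.2.2 (s t) (s (t + 1)) r) ∧
      ∀ r e, c.2.2 = some (r, e) → r < K := by
  unfold allc at hc
  rw [List.mem_flatMap] at hc
  obtain ⟨j, hj, hc⟩ := hc
  rw [List.mem_range] at hj
  have hget : P[j]? = some P[j] := List.getElem?_eq_getElem hj
  have hbd : bd K P[j] := hOk.ins _ (List.getElem_mem hj)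
  have hst := hR.stp t
  rw [hget] at hc
  generalize hI : P[j] = I at *
  cases I with
  | inc r t' =>
    simp only [cases', List.mem_singleton] at hc
    subst hc
    simp only [at_st] at h1
    subst h1
    simp only [step, hget] at hst
    rw [Prod.mk.injEq] at hst
    refine ⟨hst.1, ?_, ?_⟩
    · intro r'
      refine ⟨?_, ?_, ?_⟩
      · intro h2
        simp only [Option.some.injEq, Prod.mk.injEq, and_true] at h2
        subst h2
        rw [hst.2]
        simp
      · intro h2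
        simp at h2
      · intro h2 _
        have h3 : r' ≠ r := by
          rintro rfl
          exact h2 rfl
        rw [hst.2]
        simp [h3]
    · intro r' e h2
      simp only [Option.some.injEq, Prod.mk.injEq] at h2
      rw [← h2.1]
      exact hbd.1
  | dec r t' t'' =>
    simp only [cases', List.mem_cons, List.not_mem_nil, or_false] at hc
    rcases hc with hc | hc
    · subst hc
      simp only [sat_and, at_st, at_zr] at h1
      obtain ⟨h1, h2⟩ := h1
      subst h1
      simp only [step, hget] at hst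
      rw [if_pos h2, Prod.mk.injEq] at hst
      refine ⟨hst.1, ?_, ?_⟩
      · intro r'
        refine ⟨?_, ?_, ?_⟩
        · intro h3
          simp at h3
        · intro h3
          simp at h3
        · intro _ _
          rw [hst.2]
      · intro r' e h3
        simp at h3
    · subst hc
      simp only [sat_and, sat_neg, at_st, at_zr] at h1
      obtain ⟨h1, h2⟩ := h1
      subst h1
      simp only [step, hget] at hst
      rw [if_neg h2, Prod.mk.injEq] at hst
      refine ⟨hst.1, ?_, ?_⟩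
      · intro r'
        refine ⟨?_, ?_, ?_⟩
        · intro h3
          simp at h3
        · intro h3
          simp only [Option.some.injEq, Prod.mk.injEq, and_true] at h3
          subst h3
          rw [hst.2]
          exact ⟨h2, by simp⟩
        · intro _ h3
          have h4 : r' ≠ r := by
            rintro rfl
            exact h3 rfl
          rw [hst.2]
          simp [h4]
      · intro r' e h3
        simp only [Option.some.injEq, Prod.mk.injEq] at h3
        rw [← h3.1]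
        exact hbd.1
  | jmp t' =>
    simp only [cases', List.mem_singleton] at hc
    subst hc
    simp only [at_st] at h1
    subst h1
    simp only [step, hget] at hst
    rw [Prod.mk.injEq] at hst
    refine ⟨hst.1, ?_, ?_⟩
    · intro r'
      refine ⟨?_, ?_, ?_⟩
      · intro h3
        simp at h3
      · intro h3
        simp at h3
      · intro _ _
        rw [hst.2]
    · intro r' e h3
      simp at h3

theorem ex_succ {t : ℕ} (h : Ex T K s (.sp t true)) : Ex T K s (.sp (t + 1) false) := by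
  simp only [Ex, if_true] at h
  simp only [Ex]
  rw [if_neg (by simp)]
  exact h

/-- the dynamic conditions -/
theorem dyn_true {P : List Ins} {x : ℕ} (hOk : Ok P K) (hR : Run P x T K q s)
    (F : Facts k T K q s) (n : ℕ) (v : {v : Wd // Ex T K s v}) :
    sat (mdl k T K q s) (dyn P K) (stg T K n s) v := by
  rw [dyn, sat_conj]
  intro φ hφ
  rw [List.mem_map] at hφ
  obtain ⟨c, hc, rfl⟩ := hφ
  rw [dyc, sat_imp, sat_and, sat_conj]
  rintro ⟨hP, h1⟩ φ hφ
  rw [List.mem_map] at hφ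
  obtain ⟨r, hr, rfl⟩ := hφ
  rw [List.mem_range] at hr
  obtain ⟨v, hv⟩ := v
  cases v with
  | ce t r i => exact absurd hP (ce_P _ _ _ _ _ _ _ _ _ _)
  | sp t b =>
    rw [at_P] at hP
    subst hP
    have h' := ex_succ hv
    obtain ⟨-, hchg, -⟩ := case_facts hOk hR _ t true hv c hc h1
    obtain ⟨g1, g2, g3⟩ := hchg r
    unfold mv
    split_ifs with e1 e2
    · have g := g1 e1
      rw [up, sat_and, sat_imp, sat_imp, sat_neg, sat_ann F, sat_ann F, know1 k T K q s _ t hv h',
        know1 k T K q s _ t hv h', sat_neg, F.three _ r _ _ _ hr, F.three _ r _ _ _ hr]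
      omega
    · obtain ⟨g, g'⟩ := g2 e2
      rw [dn, sat_and, sat_imp, sat_imp, sat_neg, sat_ann F, know1 k T K q s _ t hv h',
        know1 k T K q s _ t hv h', sat_neg, F.three _ r _ _ _ hr, F.three _ r _ _ _ hr]
      omega
    · have g := g3 e1 e2
      rw [same, sat_and, sat_imp, sat_imp, sat_neg, know1 k T K q s _ t hv h',
        know1 k T K q s _ t hv h', sat_neg, F.three _ r _ _ _ hr, F.three _ r _ _ _ hr]
      omega

/-- the static conditions -/
theorem sta_true {P : List Ins} {x : ℕ} (hOk : Ok P K) (hR : Run P x T K q s)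
    (F : Facts k T K q s) (v : {v : Wd // Ex T K s v}) :
    sat (mdl k T K q s) (sta P K) (stg T K 0 s) v := by
  obtain ⟨v, hv⟩ := v
  rw [sta, sat_conj]
  intro φ hφ
  simp only [List.mem_cons, List.not_mem_nil, or_false] at hφ
  rcases hφ with rfl | rfl | rfl | rfl | rfl | rfl | rfl | rfl | rfl | rfl | rfl
  · rw [sat_conj]
    intro φ hφ
    rw [List.mem_flatMap] at hφ
    obtain ⟨j, -, hφ⟩ := hφ
    rw [List.mem_map] at hφ
    obtain ⟨j', -, rfl⟩ := hφ
    split_ifs with e
    · exact sat_top _ _ _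
    · rw [sat_imp, sat_neg]
      cases v with
      | sp t b =>
        rw [at_st, at_st]
        omega
      | ce t r i => exact fun h => absurd h (ce_st _ _ _ _ _ _ _ _ _ _ _)
  · rw [sat_conj]
    intro φ hφ
    rw [List.mem_flatMap] at hφ
    obtain ⟨j, -, hφ⟩ := hφ
    rw [List.mem_map] at hφ
    obtain ⟨j', -, rfl⟩ := hφ
    rw [sat_imp, sat_neg]
    cases v with
    | sp t b => exact fun _ => at_cell _ _ _ _ _ _ _ _ _ _ _
    | ce t r i => exact fun h => absurd h (ce_sp _ _ _ _ _ _ _ _ _ _)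
  · rw [sat_conj]
    intro φ hφ
    rw [List.mem_map] at hφ
    obtain ⟨j, -, rfl⟩ := hφ
    rw [sat_imp, sat_and, sat_know]
    rintro ⟨h1, h2⟩ ⟨w, hw⟩ - hr
    rw [R0] at hr
    rw [sat_imp]
    intro h3
    cases v with
    | ce t r i => exact absurd h1 (ce_sp _ _ _ _ _ _ _ _ _ _)
    | sp t b =>
      cases w with
      | ce t r i => exact absurd h3 (ce_sp _ _ _ _ _ _ _ _ _ _)
      | sp t' b' =>
        rw [at_st] at h2 ⊢
        simp only [cl0, Prod.mk.injEq] at hr
        rw [h2, hr.2.1]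
  · rw [sat_imp, sat_disj]
    intro h1
    cases v with
    | ce t r i => exact absurd h1 (ce_P _ _ _ _ _ _ _ _ _ _)
    | sp t b =>
      rw [at_P] at h1
      subst h1
      have ht : t < T := by simpa [Ex] using hv
      refine ⟨st (q t), List.mem_map.2 ⟨q t, List.mem_range.2 (hR.lt t ht), rfl⟩, ?_⟩
      rw [at_st]
  · rw [sat_imp, sat_or, sat_dia]
    intro h1
    cases v with
    | ce t r i => exact absurd h1 (ce_S _ _ _ _ _ _ _ _ _ _)
    | sp t b =>
      rw [at_S] at h1
      subst h1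
      have ht : t ≤ T := by simpa [Ex] using hv
      rw [at_ini]
      cases t with
      | zero => exact Or.inl ⟨rfl, rfl⟩
      | succ t =>
        right
        refine ⟨⟨.sp t true, by simp [Ex]; omega⟩, mem_sp _ _ _ _, ?_, ?_⟩
        · rw [R1]
          simp [cl1]
        · rw [at_P]
  · rw [sat_imp, sat_know]
    rintro h1 ⟨w, hw⟩ - hr
    rw [R1] at hr
    rw [sat_imp]
    intro h3
    cases v with
    | ce t r i => exact absurd h1 (ce_ini _ _ _ _ _ _ _ _ _ _)
    | sp t b =>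
      cases w with
      | ce t r i => exact absurd h3 (ce_S _ _ _ _ _ _ _ _ _ _)
      | sp t' b' =>
        rw [at_ini] at h1 ⊢
        rw [at_S] at h3
        obtain ⟨rfl, rfl⟩ := h1
        subst h3
        simp [cl1] at hr
        exact ⟨rfl, hr.symm⟩
  · rw [sat_imp, sat_dia]
    intro h1
    cases v with
    | ce t r i => exact absurd h1 (ce_P _ _ _ _ _ _ _ _ _ _)
    | sp t b =>
      rw [at_P] at h1
      subst h1
      refine ⟨⟨.sp (t + 1) false, ex_succ hv⟩, mem_sp _ _ _ _, ?_, ?_⟩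
      · rw [R1]
        simp [cl1]
      · rw [at_S]
  · rw [sat_conj]
    intro φ hφ
    rw [List.mem_map] at hφ
    obtain ⟨r, hr, rfl⟩ := hφ
    rw [List.mem_range] at hr
    rw [sat_imp, sat_and, sat_imp, sat_imp, sat_neg, sat_neg]
    intro h1
    cases v with
    | ce t r i => exact absurd h1 (ce_P _ _ _ _ _ _ _ _ _ _)
    | sp t b =>
      rw [at_zr, F.three 0 r t b hv hr]
      omega
  · rw [sat_conj]
    intro φ hφ
    rw [List.mem_map] at hφ
    obtain ⟨c, hc, rfl⟩ := hφ
    rw [stc, sat_and]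
    have key : sat (mdl k T K q s) (.and sP c.1) (stg T K 0 s) ⟨v, hv⟩ →
        ∃ (t : ℕ) (h : Ex T K s (.sp t true)), v = .sp t true ∧ q (t + 1) = c.2.1 ∧
          (∀ r, chg c.2.2 (s t) (s (t + 1)) r) ∧ ∀ r e, c.2.2 = some (r, e) → r < K := by
      intro h0
      rw [sat_and] at h0
      obtain ⟨h1, h2⟩ := h0
      cases v with
      | ce t r i => exact absurd h1 (ce_P _ _ _ _ _ _ _ _ _ _)
      | sp t b =>
        rw [at_P] at h1
        subst h1
        exact ⟨t, hv, rfl, case_facts hOk hR _ t true hv c hc h2⟩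
    constructor
    · rw [sat_imp]
      intro h0
      obtain ⟨t, h, rfl, h1, -⟩ := key h0
      rw [know1 k T K q s 0 t h (ex_succ h), at_st]
      exact h1.symm
    · rcases hm : c.2.2 with _ | ⟨r, e⟩
      · exact sat_top _ _ _
      · cases e with
        | false => exact sat_top _ _ _
        | true =>
          change sat (mdl k T K q s) (imp (.and sP c.1) (.know 1 (imp sS (see r)))) _ _
          rw [sat_imp]
          intro h0
          obtain ⟨t, h, rfl, -, h1, h2⟩ := key h0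
          have hr := h2 r true hm
          rw [know1 k T K q s 0 t h (ex_succ h), F.three 0 r _ _ _ hr]
          have := (h1 r).1 hm
          omega
  · rw [sat_imp, sat_and]
    rintro ⟨h1, h2⟩
    cases v with
    | ce t r i => exact absurd h1 (ce_S _ _ _ _ _ _ _ _ _ _)
    | sp t b =>
      rw [at_ini] at h2
      obtain ⟨rfl, rfl⟩ := h2
      rw [at_st]
      exact hR.q0.symm
  · rw [sat_conj]
    intro φ hφ
    rw [List.mem_map] at hφ
    obtain ⟨r, hr, rfl⟩ := hφ
    rw [List.mem_range] at hr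
    split_ifs with e
    · exact sat_top _ _ _
    · rw [sat_imp, sat_and]
      rintro ⟨h1, h2⟩
      cases v with
      | ce t r i => exact absurd h1 (ce_S _ _ _ _ _ _ _ _ _ _)
      | sp t b =>
        rw [at_ini] at h2
        obtain ⟨rfl, rfl⟩ := h2
        refine sat_val F r 0 false hv hr 0 0 ?_
        rw [hR.s0]
        simp [sx, e]

theorem reach (D : Set {v : Wd // Ex T K s v}) (hD : ∀ t b h, (⟨.sp t b, h⟩ : {v // Ex T K s v}) ∈ D)
    (h0 : Ex T K s (.sp 0 false)) (t : ℕ) : ∀ h : Ex T K s (.sp t false),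
    Relation.TransGen (fun x y : {v : Wd // Ex T K s v} => x ∈ D ∧ y ∈ D ∧
      ∃ a ∈ ({0, 1} : Finset (Fin (k + 2))), ((mdl k T K q s).R a).r x y)
      ⟨.sp 0 false, h0⟩ ⟨.sp t false, h⟩ := by
  induction t with
  | zero =>
    intro h
    refine Relation.TransGen.single ⟨hD _ _ _, hD _ _ _, 0, by simp, ?_⟩
    rw [R0]
  | succ t ih =>
    intro h
    have h1 : Ex T K s (.sp t true) := by
      simp [Ex] at h ⊢
      omega
    have h2 : Ex T K s (.sp t false) := by
      simp [Ex] at h ⊢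
      omega
    refine Relation.TransGen.tail (b := (⟨.sp t true, h1⟩ : {v : Wd // Ex T K s v}))
      (Relation.TransGen.tail (ih h2) ⟨hD _ _ _, hD _ _ _, 0, by simp, ?_⟩)
      ⟨hD _ _ _, hD _ _ _, 1, by simp, ?_⟩
    · rw [R0]
      simp [cl0]
    · rw [R1]
      simp [cl1]

end run

/-- the formula is true at the first world -/
theorem phi_true {k T K : ℕ} {q : ℕ → ℕ} {s : ℕ → ℕ → ℕ} {P : List Ins} {x : ℕ} (hOk : Ok P K)
    (hR : Run P x T K q s) (F : Facts k T K q s) (h0 : Ex T K s (.sp 0 false)) :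
    sat (mdl k T K q s) (phi P K x) Set.univ ⟨.sp 0 false, h0⟩ := by
  have hu : (Set.univ : Set {v : Wd // Ex T K s v}) = stg T K 0 s := F.one 0
  rw [phi, sat_conj]
  intro φ hφ
  simp only [List.mem_cons, List.not_mem_nil, or_false] at hφ
  rcases hφ with rfl | rfl | rfl | rfl | rfl | rfl
  · rw [at_S]
  · rw [at_ini]
    exact ⟨rfl, rfl⟩
  · intro n _
    rw [F.one n]
    exact sat_C _ _ _ _ fun v _ => dyn_true hOk hR F n v
  · intro _ hC
    have hD : ∀ t b h, (⟨.sp t b, h⟩ : {v // Ex T K s v}) ∈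
        {v | v ∈ (Set.univ : Set {v : Wd // Ex T K s v}) ∧
          sat (mdl k T K q s) sp Set.univ v} := by
      intro t b h
      exact ⟨trivial, at_sp _ _ _ _ _ _ _ _ _⟩
    have hT : Ex T K s (.sp T false) := by simp [Ex]
    have h1 := hC ⟨.sp T false, hT⟩ (reach _ hD h0 T hT)
    rw [sat_neg] at h1
    apply h1
    rw [halt, sat_disj]
    refine ⟨_, List.mem_map.2 ⟨q T, List.mem_range.2 (hR.ltK T), rfl⟩, ?_⟩
    rw [if_neg (Nat.not_lt.2 hR.le), at_st]
  · rw [hu]
    exact sat_C _ _ _ _ fun v _ => sta_true hOk hR F v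
  · rw [hu]
    refine sat_C _ _ _ _ fun v _ => ?_
    obtain ⟨v, hv⟩ := v
    rw [sat_imp, sat_and]
    rintro ⟨h1, h2⟩
    cases v with
    | ce t r i => exact absurd h1 (ce_S _ _ _ _ _ _ _ _ _ _)
    | sp t b =>
      rw [at_ini] at h2
      obtain ⟨rfl, rfl⟩ := h2
      have hK : 0 < K := lt_of_le_of_lt (Nat.zero_le _) hOk.len
      refine sat_val F 0 0 false hv hK x 0 ?_
      rw [hR.s0]
      simp [sx]

/-- a halting machine gives a run -/
theorem run_of_halts {P : List Ins} {x K : ℕ} (hOk : Ok P K) (hH : Halts P x) :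
    ∃ (T : ℕ) (q : ℕ → ℕ) (s : ℕ → ℕ → ℕ), Run P x T K q s := by
  classical
  refine ⟨Nat.find hH, fun t => ((step P)^[t] (0, sx x 0 0)).1,
    fun t => ((step P)^[t] (0, sx x 0 0)).2, rfl, rfl, ?_, ?_, ?_, ?_⟩
  · intro t
    rw [Function.iterate_succ_apply']
  · intro t ht
    have h1 := Nat.find_min hH ht
    by_contra h2
    exact h1 (List.getElem?_eq_none (Nat.not_lt.1 h2))
  · have h1 := Nat.find_spec hH
    by_contra h2
    rw [List.getElem?_eq_getElem (Nat.not_le.1 h2)] at h1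
    simp at h1
  · intro t
    induction t with
    | zero => exact lt_of_le_of_lt (Nat.zero_le _) hOk.len
    | succ t ih =>
      rw [Function.iterate_succ_apply']
      generalize (step P)^[t] (0, sx x 0 0) = y at *
      rcases hI : P[y.1]? with _ | I
      · simp only [step, hI]
        exact ih
      · have hmem : I ∈ P := List.mem_of_getElem? hI
        have hbd := hOk.ins I hmem
        cases I with
        | inc r t' =>
          simp only [step, hI]
          exact hbd.2
        | dec r t' t'' =>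
          simp only [step, hI]
          split_ifs
          · exact hbd.2.2
          · exact hbd.2.1
        | jmp t' =>
          simp only [step, hI]
          exact hbd

/-- CPL: the model of a halting run satisfies the formula -/
theorem t_CPL (hSTG : S_STG) : S_CPL := by
  intro k K P x hOk hH
  obtain ⟨T, q, s, hR⟩ := run_of_halts hOk hH
  obtain ⟨hfin, h1, h2, h3⟩ := hSTG k T K q s
  have h0 : Ex T K s (.sp 0 false) := by simp [Ex]
  exact ⟨_, hfin, mdl k T K q s, ⟨.sp 0 false, h0⟩, phi_true hOk hR ⟨h1, h2, h3⟩ h0⟩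

end Pool.Agent.V5helper91.EP
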